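import Pool.Agent.N587.OX.Asym

set_option autoImplicit false

/-!
# The d-to-1 conjecture: Turing reductions of constant depth have exponential size

Circuits with oracle gates (`OCircuit`), their runs and `OCircuit.Parity` are defined in
`Pool/Agent/N587/OT/Defs.lean`.

For no `d`, `R` and `ε < 1` is the problem to distinguish `d`-to-1 Label Cover instances of value
one from those of value less than `ε` hard under nonuniform Turing reductions of constant depth
(with AND and OR gates of unbounded fan-in, NOT gates and any number of adaptive oracle queries of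
any length) and of polynomial or quasipolynomial size, or of size `2 ^ (n ^ c)` with a small `c`:
not even the parity of `n` bits can be computed in this way. So, other than for most NP-hard
problems, a proof of the conjecture needs reductions outside of this class.

The idea of the proof: level by level, the circuit is restricted at random such that all gates get
shallow decision trees and the oracle gates get answers which are consistent with the promise
problem. The main point is a switching lemma for words (`Pool/Agent/N587/OX/Gs.lean`): if every
symbol of a word of `m` symbols has a decision tree of depth `D`, then after a random restriction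
with star probability `c γ / D`, except with probability `2 ^ (-u)`, some decision tree of depth `u`
settles all but less than `γ m` of the symbols (in contrast to the usual switching lemma for one
function the number of the symbols is arbitrary; the tree asks for `O(u / γ)` symbols which are
chosen at random). So below each of its leaves the query cannot change from a yes-instance to a
no-instance, and there is an answer of depth `u` which is right. Equal queries must get equal
answers; that two gates ask the same word is a conjunction over the symbols of conditions of small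
depth, and this is simplified by a further restriction.
-/

namespace Pool.Agent.Results.MP_62e2f2_lc.AC0TuringReductions

open Finset Pool.Agent.N587.OT

/-- An edge of a `d`-to-1 Label Cover instance with the vertex sets `V` and `W`, with `R` left labels
and `d R` right labels: its ends `v` and `w` and a map `π` from right labels to left labels, all of
whose fibres have at most `d` elements. -/
structure Con (V W : Type) (d R : ℕ) where
  v : V
  w : W
  π : Fin (d * R) → Fin R
  fibre : ∀ b, (univ.filter fun a => π a = b).card ≤ d

/-- the labels `f` and `g` satisfy the edge -/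
def Con.Sat {V W : Type} {d R : ℕ} (c : Con V W d R) (f : V → Fin R) (g : W → Fin (d * R)) : Prop :=
  c.π (g c.w) = f c.v

variable {V W : Type} {d R l : ℕ}

/-- The word `a` encodes an instance (a nonempty list of edges, one by each of its `m` symbols) of
value one. -/
def IsYes (dec : (Fin l → Bool) → Option (Con V W d R)) (m : ℕ) (a : Fin m → Fin l → Bool) : Prop :=
  0 < m ∧ ∃ E : Fin m → Con V W d R, (∀ i, dec (a i) = some (E i)) ∧
    ∃ (f : V → Fin R) (g : W → Fin (d * R)), ∀ i, (E i).Sat f g

open scoped Classical in
/-- The word `a` encodes an instance (a nonempty list of edges, one by each of its `m` symbols) of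
value less than `ε`. -/
def IsNo (dec : (Fin l → Bool) → Option (Con V W d R)) (ε : ℝ) (m : ℕ)
    (a : Fin m → Fin l → Bool) : Prop :=
  0 < m ∧ ∃ E : Fin m → Con V W d R, (∀ i, dec (a i) = some (E i)) ∧
    ∀ (f : V → Fin R) (g : W → Fin (d * R)), ((univ.filter fun i => (E i).Sat f g).card : ℝ) < ε * m

theorem gap (dec : (Fin l → Bool) → Option (Con V W d R)) {ε : ℝ} {m : ℕ}
    {a b : Fin m → Fin l → Bool} (ha : IsYes dec m a) (hb : IsNo dec ε m b) :
    by classical exact (1 - ε) * m ≤ ((univ.filter fun i => a i ≠ b i).card : ℝ) := by
  classical
  obtain ⟨hm, E, hE, f, g, hfg⟩ := ha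
  obtain ⟨_, E', hE', hno⟩ := hb
  have h1 : (univ.filter fun i => ∃ c, dec (a i) = some c ∧ c.Sat f g) = univ := by
    ext i
    simp only [mem_filter, mem_univ, true_and, iff_true]
    exact ⟨E i, hE i, hfg i⟩
  have h2 : (univ.filter fun i => ∃ c, dec (b i) = some c ∧ c.Sat f g) =
      univ.filter fun i => (E' i).Sat f g := by
    ext i
    simp only [mem_filter, mem_univ, true_and, hE', Option.some.injEq]
    constructor
    · rintro ⟨c, hc, h⟩
      rw [hc]
      exact h
    · intro h
      exact ⟨_, rfl, h⟩
  have h3 := differ a b dec (fun c => c.Sat f g) (u := m) (v := ε * m) (by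
    rw [h1, card_univ, Fintype.card_fin]) (by
    rw [h2]
    exact (hno f g).le)
  refine (le_of_eq (by ring)).trans (h3.trans (le_of_eq ?_))
  congr!

/-- Let `C` be a circuit with `n` inputs, `s` gates (oracle gates among them) and depth at most `h`
whose queries are words of symbols of `l ≥ 1` bits, and let `dec` be any map which decodes symbols to
edges of `d`-to-1 instances with `R` left labels. Let `Y` and `Z` be sets of words such that every
word in `Y` encodes an instance of value one and every word in `Z` an instance of value less than
`ε < 1`. Suppose that `C` computes the parity of its input from all oracles which accept the words in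
`Y` and reject the words in `Z`.
(1) If `s ≤ 2 ^ u` and `l ≤ (1 - ε) 2 ^ u` with `u ≥ 1`, then
`n (1 - ε) ^ h ≤ (2 ^ 60 l u ^ 3) ^ h * 3 u`.
(2) For every depth `h` there are `e ≥ 1` and `N₀` such that `s > 2 ^ (n ^ (1 / (3 h + 2)))` if
`n ≥ N₀`, `l ^ e ≤ n` and `(1 - ε) ^ e * n ≥ 1`. -/
theorem result :
    (∀ (n s l h u d R : ℕ) (V W : Type) (C : OCircuit n s l h)
      (dec : (Fin l → Bool) → Option (Con V W d R)) (ε : ℝ)
      (Y Z : (m : ℕ) → (Fin m → Fin l → Bool) → Prop), 1 ≤ l → 0 ≤ ε → ε < 1 →
      (∀ m a, Y m a → IsYes dec m a) → (∀ m a, Z m a → IsNo dec ε m a) → C.Parity Y Z →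
      1 ≤ u → s ≤ 2 ^ u → (l : ℝ) ≤ (1 - ε) * 2 ^ u →
      n * (1 - ε) ^ h ≤ (2 ^ 60 * (l * u ^ 3)) ^ h * (3 * u)) ∧
    ∀ h : ℕ, ∃ e N₀ : ℕ, 1 ≤ e ∧ ∀ (n s l d R : ℕ) (V W : Type) (C : OCircuit n s l h)
      (dec : (Fin l → Bool) → Option (Con V W d R)) (ε : ℝ)
      (Y Z : (m : ℕ) → (Fin m → Fin l → Bool) → Prop), 1 ≤ l → 0 ≤ ε → ε < 1 →
      (∀ m a, Y m a → IsYes dec m a) → (∀ m a, Z m a → IsNo dec ε m a) → C.Parity Y Z →
      N₀ ≤ n → l ^ e ≤ n → 1 ≤ (1 - ε) ^ e * n →
      (2 : ℝ) ^ ((n : ℝ) ^ (1 / (3 * h + 2 : ℝ))) < s := by
  refine ⟨?_, ?_⟩
  · intro n s l h u d R V W C dec ε Y Z hl hδ0 hδ1 hY hZ hpar hu hs hlu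
    exact Pool.Agent.N587.OX.parity_bound (C := C) hu hs hl (by linarith) (by linarith) hlu
      (fun m a b ha hb => gap dec (hY m a ha) (hZ m b hb)) (fun m a ha => (hY m a ha).1) hpar
  · intro h
    obtain ⟨e, N₀, he, hN⟩ := Pool.Agent.N587.OX.asym h
    refine ⟨e, N₀, he, ?_⟩
    intro n s l d R V W C dec ε Y Z hl hδ0 hδ1 hY hZ hpar hn hle hγ
    by_contra hcon
    push Not at hcon
    exact hN C (γ := 1 - ε) hn hcon hl hle (by linarith) (by linarith) hγ
      (fun m a b ha hb => gap dec (hY m a ha) (hZ m b hb)) (fun m a ha => (hY m a ha).1) hpar

end Pool.Agent.Results.MP_62e2f2_lc.AC0TuringReductions
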