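import Pool.Agent.N631.FT.Final

/-!
# Khot's d-to-1 conjecture for circuits with few negations and programs with few tests

The starting result `MonotoneCircuits` shows that randomised circuits of arbitrary nondecreasing real
gates need exponential size to tell the d-to-1 games of value one from those of value less than
`ε`. Here the circuits may also contain non-monotone gates:

* a layer with `w` wires consists of arbitrarily many gates that compute arbitrary real functions of
  the results of `w` comparisons of values of earlier gates with constants. For a circuit let `κ` be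
  the product of the numbers `w + 1` over its layers. So `κ ≤ 2 ^ t` for circuits with `t` NOT gates
  at arbitrary places, and `κ = t + 1` if moreover no path contains two NOT gates.
* more generally we consider programs that compute nondecreasing functions of known values and branch
  on the results of comparisons; see `TProg` for the width of a program, which is the number of
  leaves if all comparisons are made one after the other.

Result: for all `d ≥ 2` and `ε > 0` there are a number `R` of labels and `C` such that randomised
programs of width at most `μ` that solve the gap problem with error `1/4` on games with `N` left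
and `N` right vertices need the time `2 ^ L` if `L ≥ C μ` and `L ^ (100 μ) ≤ N`. So they need exponential
time `2 ^ (N ^ (1 / (100 μ)))` if the width `μ` is constant, and superpolynomial time
`2 ^ ((log N) ^ k)` if `μ ≤ c log N / log log N`. The same holds for circuits with `2 κ ≤ μ`. So
`(1 - o(1)) log log N` NOT gates, or `c log N / log log N` NOT gates of which no two lie on a path,
do not help, whereas with all NOT gates this would be the conjecture for circuits (instead of
NP-hardness).

Proof: there are `4 μ` scales. The vertices of the hard games are indexed by a scale `j`, a vertex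
of a fixed game, an element of its cloud and a copy, and at the scale `j` each vertex has `β ^ j`
copies, so that a larger scale dominates all smaller ones. The YES instances are unions of random
satisfiable games on the scales below `k`; the NO instances have in addition a random copy of the
fixed game (of small value and with locally consistent labellings) on the scale `k`. Along this
growing chain of games the results of the comparisons change rarely, and by the approximation method
for monotone circuits, applied on one scale, a comparison whose result does not change from one YES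
instance to the next one does not change on most NO instances.
-/

open scoped Classical
open Finset

namespace Pool.Agent.Results.MP_62e2f2_lc.FewNegations

open H589DT Pool.Agent.N631.FT

/-- A randomised program, that is a finite nonempty family `F` of programs, tells the games of value
less than `ε` (where its answer is `true`) from those of value one (answer `false`), in both cases
for at least three quarters of the programs. -/
def Tells {d R N : ℕ} {Ω : Type} [Fintype Ω] (ε : ℝ) (F : Ω → DGame (Fin N) (Fin N) d R → Bool) :
    Prop :=
  ∀ I, (DNo ε I → 3 * Fintype.card Ω ≤ 4 * (univ.filter fun ω => F ω I = true).card) ∧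
    (DYes I → 3 * Fintype.card Ω ≤ 4 * (univ.filter fun ω => F ω I = false).card)

/-- The bound `s` for programs of width at most `μ` and for circuits with `2 κ ≤ μ`: each
randomised program (circuit) that solves the gap problem for `d`-to-1 games with `N` left and `N`
right vertices, `R` left and `d R` right labels and value one or less than `ε` has a member with
running time (size) at least `s`. -/
def Bound (d R N : ℕ) (ε : ℝ) (μ s : ℕ) : Prop :=
  (∀ (Ω : Type) [Fintype Ω] [Nonempty Ω] (S m : Ω → ℕ)
      (F : Ω → DGame (Fin N) (Fin N) d R → Bool),
    (∀ ω, TProg (dInputs (Fin N) (Fin N) d R) [] (S ω) (m ω) (F ω)) → (∀ ω, m ω ≤ μ) →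
    Tells ε F → ∃ ω, s ≤ S ω) ∧
  (∀ (Ω : Type) [Fintype Ω] [Nonempty Ω] (l : Ω → List (DGame (Fin N) (Fin N) d R → ℝ))
      (κ : Ω → ℕ),
    (∀ ω, NProg (dInputs (Fin N) (Fin N) d R) (l ω) (κ ω)) → (∀ ω, 2 * κ ω ≤ μ) →
    DDecides ε l → ∃ ω, s ≤ (l ω).length)

/-- For all `d ≥ 2` and `ε > 0` there are `R ≥ 1` and `C` such that for all `μ ≥ 1` the bound
`2 ^ L` holds for programs of width at most `μ` and for circuits with `2 κ ≤ μ` on games with
`N + N` vertices if `C μ ≤ L` and `L ^ (100 μ) ≤ N`. In particular, for all `k ≥ 2` and large `N`,
the bound `2 ^ ((log N) ^ k)` holds if `100 k μ (log log N + 1) ≤ log N` (logarithms to the base two,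
rounded down). -/
theorem result (d : ℕ) (hd : 2 ≤ d) (ε : ℝ) (hε : 0 < ε) :
    ∃ R : ℕ, 1 ≤ R ∧
      (∃ C : ℕ, ∀ μ L N : ℕ, 1 ≤ μ → C * μ ≤ L → L ^ (100 * μ) ≤ N → Bound d R N ε μ (2 ^ L)) ∧
      ∀ k : ℕ, 2 ≤ k → ∃ N0 : ℕ, ∀ N μ : ℕ, N0 ≤ N → 1 ≤ μ →
        100 * k * μ * (Nat.log 2 (Nat.log 2 N) + 1) ≤ Nat.log 2 N →
        Bound d R N ε μ (2 ^ (Nat.log 2 N) ^ k) := by
  obtain ⟨R, C, hR, H⟩ := main_T d hd ε hε
  have H1 : ∀ μ L N : ℕ, 1 ≤ μ → C * μ ≤ L → L ^ (100 * μ) ≤ N → Bound d R N ε μ (2 ^ L) := by
    intro μ L N hμ hL hN
    refine ⟨?_, ?_⟩
    · intro Ω _ _ S m F hp hm hF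
      exact H μ L N hμ hL hN Ω S m F hp hm (fun I => (hF I).1) (fun I => (hF I).2)
    · intro Ω _ _ l κ hl hκ hdec
      exact circuits_of_programs (H μ L N hμ hL hN) Ω l κ hl hκ hdec
  refine ⟨R, hR, ⟨C, H1⟩, fun k hk => ⟨2 ^ (C + 2), fun N μ hN hμ h => ?_⟩⟩
  obtain ⟨h1, h2⟩ := choose_log C k N μ hk hμ hN h
  exact H1 μ _ N hμ h1 h2

end Pool.Agent.Results.MP_62e2f2_lc.FewNegations
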