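import Pool.Agent.N587.FX.Asym

set_option autoImplicit false

/-!
# The d-to-1 conjecture: reductions computed by subquadratic formulas

A reduction of parity to gap d-to-1 Label Cover in two steps: first a circuit `C` of constant depth with
any number of adaptive oracle gates (`OCircuit` in `Pool/Agent/N587/OT/Defs.lean`), then an
instance which is written down by formulas (with AND and OR gates of fan-in two, negations at the leaves,
`Pool/Agent/N587/UG/Form.lean`): every bit of every edge is the value of a formula with at most `L`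
leaves, each of which is a node of `C` or its negation. If `C` has size `2 ^ (n ^ o(1))`, then
`L ≥ n ^ (2 - o(1))`; formulas with `n ^ 2` leaves compute parity itself. The number of the edges is
not restricted.

If every bit of every edge is a unate function of the input (of any complexity; the signs may depend
on the bit), then there is no reduction at all, unless an edge is encoded by more than
`(1 - ε) √n` bits.

The idea of the proof: flipping one input bit changes the value of the instance from one to less than `ε`
or conversely, hence it changes a fraction of `1 - ε` of the edges; so some bit of the edges has large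
average sensitivity. After a restriction of the inputs, which is found as in
`AC0TuringReductions.lean`, all nodes of `C` have shallow decision trees, and then a formula with `L`
leaves has average sensitivity `√L` times the depth (Khrapchenko's bound for formulas whose leaves
are functions of small sensitivity, `Pool/Agent/N587/FX/Kh.lean`).
-/

namespace Pool.Agent.Results.MP_62e2f2_lc.SubquadraticFormulas

open Finset Pool.Agent.N587.OT Pool.Agent.N587.UG Pool.Agent.N587.FX

/-- An edge of a `d`-to-1 Label Cover instance with the vertex sets `V` and `W`, with `R` left labels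
and `d R` right labels: its ends `v` and `w` and a map `π` from right labels to left labels, all of
whose fibres have at most `d` elements. -/
structure Con (V W : Type) (d R : ℕ) where
  v : V
  w : W
  π : Fin (d * R) → Fin R
  fibre : ∀ b, (univ.filter fun a => π a = b).card ≤ d

/-- the labels `f` and `g` satisfy the edge -/
def Con.Sat {V W : Type} {d R : ℕ} (c : Con V W d R) (f : V → Fin R) (g : W → Fin (d * R)) : Prop :=
  c.π (g c.w) = f c.v

variable {V W : Type} {d R l : ℕ}

/-- The word `a` encodes an instance (a nonempty list of edges, one by each of its `m` symbols) of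
value one. -/
def IsYes (dec : (Fin l → Bool) → Option (Con V W d R)) (m : ℕ) (a : Fin m → Fin l → Bool) : Prop :=
  0 < m ∧ ∃ E : Fin m → Con V W d R, (∀ i, dec (a i) = some (E i)) ∧
    ∃ (f : V → Fin R) (g : W → Fin (d * R)), ∀ i, (E i).Sat f g

open scoped Classical in
/-- The word `a` encodes an instance (a nonempty list of edges, one by each of its `m` symbols) of
value less than `ε`. -/
def IsNo (dec : (Fin l → Bool) → Option (Con V W d R)) (ε : ℝ) (m : ℕ)
    (a : Fin m → Fin l → Bool) : Prop :=
  0 < m ∧ ∃ E : Fin m → Con V W d R, (∀ i, dec (a i) = some (E i)) ∧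
    ∀ (f : V → Fin R) (g : W → Fin (d * R)), ((univ.filter fun i => (E i).Sat f g).card : ℝ) < ε * m

theorem gap (dec : (Fin l → Bool) → Option (Con V W d R)) {ε : ℝ} {m : ℕ}
    {a b : Fin m → Fin l → Bool} (ha : IsYes dec m a) (hb : IsNo dec ε m b) :
    by classical exact (1 - ε) * m ≤ ((univ.filter fun i => a i ≠ b i).card : ℝ) := by
  classical
  obtain ⟨hm, E, hE, f, g, hfg⟩ := ha
  obtain ⟨_, E', hE', hno⟩ := hb
  have h1 : (univ.filter fun i => ∃ c, dec (a i) = some c ∧ c.Sat f g) = univ := by
    ext i
    simp only [mem_filter, mem_univ, true_and, iff_true]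
    exact ⟨E i, hE i, hfg i⟩
  have h2 : (univ.filter fun i => ∃ c, dec (b i) = some c ∧ c.Sat f g) =
      univ.filter fun i => (E' i).Sat f g := by
    ext i
    simp only [mem_filter, mem_univ, true_and, hE', Option.some.injEq]
    constructor
    · rintro ⟨c, hc, h⟩
      rw [hc]
      exact h
    · intro h
      exact ⟨_, rfl, h⟩
  have h3 := differ a b dec (fun c => c.Sat f g) (u := m) (v := ε * m) (by
    rw [h1, card_univ, Fintype.card_fin]) (by
    rw [h2]
    exact (hno f g).le)
  refine (le_of_eq (by ring)).trans (h3.trans (le_of_eq ?_))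
  congr!

/-- Let `C` be a circuit with `n` inputs, `s` gates (oracle gates among them) and depth at most `h`
whose queries are words of symbols of `l ≥ 1` bits, and let `W` be formulas with at most `L` leaves
over the nodes of `C`, one for each bit of a word of `m` symbols. Let `dec` be any map which decodes
symbols to edges of `d`-to-1 instances with `R` left labels, and let `Y` and `Z` be sets of words such
that every word in `Y` encodes an instance of value one and every word in `Z` an instance of value
less than `ε < 1`. Suppose that for all oracles which accept the words in `Y` and reject the words in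
`Z` the word computed by `C` and `W` is in `Y` for the inputs of even parity and in `Z` for the inputs
of odd parity (`Reduces`).
(1) If `s ≤ 2 ^ u` and `l ≤ (1 - ε) 2 ^ u` with `u ≥ 1`, then
`n (1 - ε) ^ (h + 1) ≤ (2 ^ 60 l u ^ 3) ^ h * 3 l u √L`.
(2) For every depth `h` and every `β > 0` there are `η > 0` and `N₀` such that `L > n ^ (2 - β)` if
`n ≥ N₀`, `s ≤ 2 ^ (n ^ η)`, `l ≤ n ^ η` and `1 - ε ≥ n ^ (-η)`.
(3) If `w` maps the inputs of even parity to instances of value one and the inputs of odd parity to
instances of value less than `ε < 1` such that all bits of `w` are unate functions of the input, then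
`(1 - ε) ^ 2 n ≤ l ^ 2`. -/
theorem result :
    (∀ (n s l h u m L d R : ℕ) (V W' : Type) (C : OCircuit n s l h)
      (W : Fin m → Fin l → Formula (Node n s)) (dec : (Fin l → Bool) → Option (Con V W' d R))
      (ε : ℝ) (Y Z : (m : ℕ) → (Fin m → Fin l → Bool) → Prop), 1 ≤ l → 0 ≤ ε → ε < 1 →
      (∀ m a, Y m a → IsYes dec m a) → (∀ m a, Z m a → IsNo dec ε m a) →
      (∀ i c, (W i c).leaves ≤ L) → Reduces C W Y Z →
      1 ≤ u → s ≤ 2 ^ u → (l : ℝ) ≤ (1 - ε) * 2 ^ u →
      n * (1 - ε) ^ (h + 1) ≤ (2 ^ 60 * (l * u ^ 3)) ^ h * (l * (3 * u * Real.sqrt L))) ∧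
    (∀ (h : ℕ) (β : ℝ), 0 < β → ∃ η : ℝ, 0 < η ∧ ∃ N₀ : ℕ,
      ∀ (n s l m L d R : ℕ) (V W' : Type) (C : OCircuit n s l h)
      (W : Fin m → Fin l → Formula (Node n s)) (dec : (Fin l → Bool) → Option (Con V W' d R))
      (ε : ℝ) (Y Z : (m : ℕ) → (Fin m → Fin l → Bool) → Prop), 1 ≤ l → 0 ≤ ε → ε < 1 →
      (∀ m a, Y m a → IsYes dec m a) → (∀ m a, Z m a → IsNo dec ε m a) →
      (∀ i c, (W i c).leaves ≤ L) → Reduces C W Y Z →
      N₀ ≤ n → (s : ℝ) ≤ 2 ^ ((n : ℝ) ^ η) → (l : ℝ) ≤ (n : ℝ) ^ η → 1 ≤ (1 - ε) * (n : ℝ) ^ η →
      (n : ℝ) ^ (2 - β) < L) ∧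
    ∀ (n l m d R : ℕ) (V W' : Type) (dec : (Fin l → Bool) → Option (Con V W' d R)) (ε : ℝ)
      (w : (Fin n → Bool) → Fin m → Fin l → Bool), 1 ≤ n → 0 ≤ ε → ε < 1 →
      (∀ i c, Unate fun x => w x i c) →
      (∀ x, ¬ Odd (univ.filter fun i => x i = true).card → IsYes dec m (w x)) →
      (∀ x, Odd (univ.filter fun i => x i = true).card → IsNo dec ε m (w x)) →
      (1 - ε) ^ 2 * n ≤ (l : ℝ) ^ 2 := by
  refine ⟨?_, ?_, ?_⟩
  · intro n s l h u m L d R V W' C W dec ε Y Z hl hδ0 hδ1 hY hZ hL hred hu hs hlu
    exact formula_bound (C := C) W hL hu hs hl (by linarith) (by linarith) hlu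
      (fun m a b ha hb => gap dec (hY m a ha) (hZ m b hb)) (fun m a ha => (hY m a ha).1) hred
  · intro h β hβ
    obtain ⟨η, hη, N₀, hN⟩ := asym h hβ
    refine ⟨η, hη, N₀, ?_⟩
    intro n s l m L d R V W' C W dec ε Y Z hl hδ0 hδ1 hY hZ hL hred hn hs hlη hγ
    exact hN C W (γ := 1 - ε) hn hs hl hlη (by linarith) hγ
      (fun m a b ha hb => gap dec (hY m a ha) (hZ m b hb)) (fun m a ha => (hY m a ha).1) hL hred
  · intro n l m d R V W' dec ε w hn hδ0 hδ1 hw hyes hno
    exact unate_bound (Y := IsYes dec) (Z := IsNo dec ε) w hw (by omega) (by linarith)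
      (fun m a b ha hb => gap dec ha hb) (fun m a ha => ha.1) hyes hno

end Pool.Agent.Results.MP_62e2f2_lc.SubquadraticFormulas
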